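import Pool.Agent.Q211.AV.Def

/-!
# `cov(𝓜) = 𝔠` gives continuum-dense sets strongly avoiding one another
-/

namespace Pool.Agent.Q211.AV

open Cardinal Set PiNat Topology

/-- Codes of partial continuous functions. -/
abbrev Code : Type := Set (List Bool × List Bool)

/-- The relation coded by `R`. -/
def Rel (R : Code) (x y : CS) : Prop := ∀ n, ∃ m, (res x m, res y n) ∈ R

/-- The points excluded by the code `R` and the point `w`. -/
def Bad (R : Code) (w : CS) : Set CS :=
  {x | (IsMeagre {x | Rel R x w} ∧ Rel R x w) ∨ (IsMeagre {y | Rel R w y} ∧ Rel R w x) ∨ x = w}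

/-- Flip the coordinates in `s`. -/
def flp (s : Finset ℕ) (x : CS) : CS := fun n => if n ∈ s then !(x n) else x n

theorem flp_flp (s : Finset ℕ) (x : CS) : flp s (flp s x) = x := by
  funext n
  by_cases h : n ∈ s
  · simp [flp, h]
  · simp [flp, h]

theorem continuous_flp (s : Finset ℕ) : Continuous (flp s) := by
  apply continuous_pi
  intro n
  by_cases h : n ∈ s
  · have : (fun x : CS => flp s x n) = (fun b : Bool => !b) ∘ fun x : CS => x n := by
      funext x
      simp [flp, h]
    rw [this]
    exact (continuous_of_discreteTopology).comp (continuous_apply n)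
  · have : (fun x : CS => flp s x n) = fun x : CS => x n := by
      funext x
      simp [flp, h]
    rw [this]
    exact continuous_apply n

/-- The flip as a homeomorphism. -/
def flpH (s : Finset ℕ) : CS ≃ₜ CS where
  toFun := flp s
  invFun := flp s
  left_inv := flp_flp s
  right_inv := flp_flp s
  continuous_toFun := continuous_flp s
  continuous_invFun := continuous_flp s

theorem isMeagre_preimage_flp (s : Finset ℕ) {M : Set CS} (h : IsMeagre M) :
    IsMeagre (flp s ⁻¹' M) :=
  h.preimage_of_isOpenMap (continuous_flp s) (flpH s).isOpenMap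

theorem isMeagre_point (w : CS) : IsMeagre ({w} : Set CS) := by
  apply IsNowhereDense.isMeagre
  rw [isClosed_singleton.isNowhereDense_iff]
  rw [eq_empty_iff_forall_notMem]
  intro x hx
  rw [mem_interior] at hx
  obtain ⟨U, hU, hUo, hxU⟩ := hx
  obtain ⟨v, ⟨a, n, rfl⟩, h1, h2⟩ :=
    (isTopologicalBasis_cylinders (E := fun _ : ℕ => Bool)).exists_subset_of_mem_open hxU hUo
  have hxw : x = w := hU hxU
  have h3 : Function.update x n (!(x n)) ∈ cylinder a n := by
    rw [mem_cylinder_iff] at h1 ⊢
    intro i hi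
    rw [Function.update_of_ne (by omega)]
    exact h1 i hi
  have h4 : Function.update x n (!(x n)) = w := hU (h2 h3)
  have h5 := congrFun (h4.trans hxw.symm) n
  rw [Function.update_self] at h5
  cases h : x n <;> simp [h] at h5

theorem isMeagre_bad (R : Code) (w : CS) : IsMeagre (Bad R w) := by
  have h : Bad R w = ({x | IsMeagre {x | Rel R x w} ∧ Rel R x w}) ∪
      (({x | IsMeagre {y | Rel R w y} ∧ Rel R w x}) ∪ {w}) := by
    ext x
    simp only [Bad, mem_setOf_eq, mem_union, mem_singleton_iff]
  rw [h]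
  refine IsMeagre.union ?_ (IsMeagre.union ?_ (isMeagre_point w))
  · by_cases h1 : IsMeagre {x | Rel R x w}
    · exact h1.mono fun x hx => hx.2
    · refine IsMeagre.mono (s := (∅ : Set CS)) (fun x hx => h1 hx.1) IsMeagre.empty
  · by_cases h1 : IsMeagre {y | Rel R w y}
    · exact h1.mono fun x hx => hx.2
    · refine IsMeagre.mono (s := (∅ : Set CS)) (fun x hx => h1 hx.1) IsMeagre.empty

theorem baire_left (R : Code) (w : CS) : BaireMeasurableSet {x | Rel R x w} := by
  have h : {x | Rel R x w} = ⋂ n, ⋃ m, {x : CS | (res x m, res w n) ∈ R} := by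
    ext x
    simp only [Rel, mem_setOf_eq, mem_iInter, mem_iUnion]
  rw [h]
  refine BaireMeasurableSet.iInter fun n => ?_
  apply IsOpen.baireMeasurableSet
  refine isOpen_iUnion fun m => ?_
  rw [isOpen_iff_forall_mem_open]
  intro x hx
  refine ⟨cylinder x m, ?_, isOpen_cylinder _ x m, self_mem_cylinder x m⟩
  intro y hy
  rw [cylinder_eq_res] at hy
  show (res y m, res w n) ∈ R
  rw [show res y m = res x m from hy]
  exact hx

/-- The code of a partial function. -/
def codeOf (Z : Set CS) (f : Z → CS) : Code :=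
  {p | (∃ z : Z, res z.1 p.1.length = p.1) ∧
    ∀ z : Z, res z.1 p.1.length = p.1 → res (f z) p.2.length = p.2}

theorem rel_codeOf {Z : Set CS} {f : Z → CS} (hf : Continuous f) (z : Z) :
    Rel (codeOf Z f) z.1 (f z) := by
  intro n
  have h1 : IsOpen (f ⁻¹' cylinder (f z) n) := (isOpen_cylinder _ _ _).preimage hf
  obtain ⟨V, hV, hVe⟩ := isOpen_induced_iff.mp h1
  have hz : z.1 ∈ V := by
    have : z ∈ Subtype.val ⁻¹' V := by
      rw [hVe]
      exact self_mem_cylinder _ _
    exact this
  obtain ⟨v, ⟨a, m, rfl⟩, h2, h3⟩ :=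
    (isTopologicalBasis_cylinders (E := fun _ : ℕ => Bool)).exists_subset_of_mem_open hz hV
  refine ⟨m, ⟨⟨z, by rw [res_length]⟩, ?_⟩⟩
  intro z' hz'
  simp only [res_length] at hz' ⊢
  have h4 : z'.1 ∈ cylinder z.1 m := by
    rw [cylinder_eq_res]
    exact hz'
  rw [← mem_cylinder_iff_eq.mp h2] at h3
  have h5 : z' ∈ f ⁻¹' cylinder (f z) n := by
    rw [← hVe]
    exact h3 h4
  have h6 : f z' ∈ cylinder (f z) n := h5
  rw [cylinder_eq_res] at h6
  exact h6

theorem rel_unique {Z : Set CS} {f : Z → CS} {x y y' : CS} (h : Rel (codeOf Z f) x y)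
    (h' : Rel (codeOf Z f) x y') : y = y' := by
  apply res_injective
  funext n
  obtain ⟨m, ⟨z, hz⟩, hm⟩ := h n
  obtain ⟨m', ⟨z', hz'⟩, hm'⟩ := h' n
  simp only [res_length] at hz hz' hm hm'
  rcases le_total m m' with hle | hle
  · have h1 : res z'.1 m = res x m := by
      rw [res_eq_res] at hz' ⊢
      exact fun k hk => hz' (lt_of_lt_of_le hk hle)
    rw [← hm z' h1, ← hm' z' hz']
  · have h1 : res z.1 m' = res x m' := by
      rw [res_eq_res] at hz ⊢
      exact fun k hk => hz (lt_of_lt_of_le hk hle)
    rw [← hm z hz, ← hm' z h1]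

theorem isMeagre_right {Z : Set CS} {f : Z → CS} (x : CS) :
    IsMeagre {y | Rel (codeOf Z f) x y} := by
  by_cases h : ∃ y, Rel (codeOf Z f) x y
  · obtain ⟨y, hy⟩ := h
    exact (isMeagre_point y).mono fun y' hy' => rel_unique hy' hy
  · refine IsMeagre.mono (s := (∅ : Set CS)) (fun y hy => h ⟨y, hy⟩) IsMeagre.empty

theorem countable_nonmeagre {Z : Set CS} {f : Z → CS} :
    {y | ¬ IsMeagre {x | Rel (codeOf Z f) x y}}.Countable := by
  have h : ∀ y : {y | ¬ IsMeagre {x | Rel (codeOf Z f) x y}}, ∃ p : List Bool,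
      (∃ a, res a p.length = p) ∧
        IsMeagre ({x | res x p.length = p} \ {x | Rel (codeOf Z f) x y.1}) := by
    intro y
    obtain ⟨U, hU, hUe⟩ := (baire_left (codeOf Z f) y.1).residualEq_isOpen
    have hne : U.Nonempty := by
      by_contra hcon
      rw [not_nonempty_iff_eq_empty] at hcon
      subst hcon
      apply y.2
      have : ({x | Rel (codeOf Z f) x y.1} : Set CS)ᶜ ∈ residual CS := by
        filter_upwards [hUe] with x hx
        intro hx'
        have : x ∈ (∅ : Set CS) := (iff_of_eq hx).mp hx'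
        exact this
      exact this
    obtain ⟨a, ha⟩ := hne
    obtain ⟨v, ⟨b, m, rfl⟩, h2, h3⟩ :=
      (isTopologicalBasis_cylinders (E := fun _ : ℕ => Bool)).exists_subset_of_mem_open ha hU
    refine ⟨res b m, ⟨b, by rw [res_length]⟩, ?_⟩
    have : ({x | res x (res b m).length = res b m} \ {x | Rel (codeOf Z f) x y.1} : Set CS)ᶜ ∈
        residual CS := by
      filter_upwards [hUe] with x hx
      rintro ⟨h4, h5⟩
      apply h5
      have h6 : x ∈ cylinder b m := by
        rw [cylinder_eq_res]
        have h4' : res x (res b m).length = res b m := h4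
        rwa [res_length] at h4'
      exact (iff_of_eq hx).mpr (h3 h6)
    exact this
  choose φ hφ1 hφ2 using h
  have hinj : Function.Injective φ := by
    intro y y' he
    by_contra hne
    have h1 := hφ2 y
    have h2 := hφ2 y'
    rw [← he] at h2
    obtain ⟨a, ha⟩ := hφ1 y
    have h3 : IsMeagre ({x | res x (φ y).length = φ y} : Set CS) := by
      refine (h1.union h2).mono ?_
      intro x hx
      by_cases h4 : Rel (codeOf Z f) x y.1
      · right
        refine ⟨hx, fun h5 => ?_⟩
        exact hne (Subtype.ext (rel_unique h4 h5))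
      · exact Or.inl ⟨hx, h4⟩
    have h4 : ({x | res x (φ y).length = φ y} : Set CS) = cylinder a (φ y).length := by
      rw [cylinder_eq_res, ha]
    rw [h4] at h3
    exact not_isMeagre_of_isOpen (isOpen_cylinder _ _ _) ⟨a, self_mem_cylinder _ _⟩ h3
  exact countable_coe_iff.mp hinj.countable

end Pool.Agent.Q211.AV
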