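import Mathlib

/-!
# Strongly and totally avoiding subsets of the Cantor space
-/

namespace Pool.Agent.Q211.AV

open Cardinal Set

/-- The Cantor space. -/
abbrev CS : Type := ℕ → Bool

/-- `A` has `𝔠` points in every nonempty open set. -/
def CDense (A : Set CS) : Prop :=
  ∀ U : Set CS, IsOpen U → U.Nonempty → #(A ∩ U : Set CS) = 𝔠

/-- `X` strongly avoids `Y`: continuous images in `Y` of subsets of `X` of size `|X|` are smaller
than `|X|`. -/
def StronglyAvoids (X Y : Set CS) : Prop :=
  ∀ Z ⊆ X, #Z = #X → ∀ f : Z → Y, Continuous f → #(range f) < #X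

/-- `X` totally avoids `Y`: continuous images in `Y` of subsets of `X` of size `|X|` are
countable. -/
def TotallyAvoids (X Y : Set CS) : Prop :=
  ∀ Z ⊆ X, #Z = #X → ∀ f : Z → Y, Continuous f → (range f).Countable

/-- Todorcevic's Open Colouring Axiom. -/
def OCA : Prop :=
  ∀ (X : Type) [TopologicalSpace X] [TopologicalSpace.SeparableSpace X]
    [TopologicalSpace.MetrizableSpace X] (K : Set (X × X)), IsOpen K →
    (∀ a b, (a, b) ∈ K → (b, a) ∈ K) →
    (∃ Y : Set X, ¬ Y.Countable ∧ ∀ a ∈ Y, ∀ b ∈ Y, a ≠ b → (a, b) ∈ K) ∨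
    ∃ F : ℕ → Set X, (⋃ n, F n) = Set.univ ∧ ∀ n, ∀ a ∈ F n, ∀ b ∈ F n, a ≠ b → (a, b) ∉ K

/-- The Cantor space is not the union of fewer than `𝔠` meagre sets: `cov(𝓜) = 𝔠`. -/
def CovMeagre : Prop :=
  ∀ F : Set (Set CS), #F < 𝔠 → (∀ M ∈ F, IsMeagre M) → ⋃₀ F ≠ Set.univ

theorem CDense.mk_eq {A : Set CS} (h : CDense A) : #A = 𝔠 := by
  have := h Set.univ isOpen_univ ⟨fun _ => false, trivial⟩
  rwa [inter_univ] at this

/-- The half `x 0 = b` of the Cantor space. -/
def Half (b : Bool) : Set CS := {x | x 0 = b}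

theorem isOpen_half (b : Bool) : IsOpen (Half b) := by
  have : Half b = (fun x : CS => x 0) ⁻¹' {b} := rfl
  rw [this]
  exact (isOpen_discrete _).preimage (continuous_apply 0)

theorem half_nonempty (b : Bool) : (Half b).Nonempty := ⟨fun _ => b, rfl⟩

theorem isOpen_agree (x : CS) (N : ℕ) : IsOpen {y : CS | ∀ m ≤ N, y m = x m} := by
  have : {y : CS | ∀ m ≤ N, y m = x m} = ⋂ m ∈ Finset.range (N + 1), (fun y : CS => y m) ⁻¹' {x m} := by
    ext y
    simp only [mem_setOf_eq, mem_iInter, Finset.mem_range, mem_preimage, mem_singleton_iff]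
    exact ⟨fun h m hm => h m (by omega), fun h m hm => h m (by omega)⟩
  rw [this]
  exact isOpen_biInter_finset fun m _ => (isOpen_discrete _).preimage (continuous_apply m)

theorem kill (X Y : Set CS) (hX : CDense X) (hY : CDense Y) (A : Set CS)
    (hA : A ⊆ X ∩ Half false) (hAc : ¬ A.Countable) (g : CS → CS) (hg : ∀ a ∈ A, g a ∈ Y)
    (hinj : InjOn g A)
    (hlip : ∀ a ∈ A, ∀ b ∈ A, ∀ N, (∀ m ≤ N, a m = b m) → ∀ m ≤ N, g a m = g b m) :
    ¬ TotallyAvoids X Y := by
  classical
  intro hT
  obtain ⟨y₀⟩ : Nonempty Y := by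
    rw [← mk_ne_zero_iff, hY.mk_eq]
    exact continuum_ne_zero
  have hZX : A ∪ (X ∩ Half true) ⊆ X := union_subset (fun a ha => (hA ha).1) inter_subset_left
  have hZ : #(A ∪ (X ∩ Half true) : Set CS) = #X := by
    apply le_antisymm (mk_le_mk_of_subset hZX)
    rw [hX.mk_eq, ← hX (Half true) (isOpen_half true) (half_nonempty true)]
    exact mk_le_mk_of_subset subset_union_right
  let f : (A ∪ (X ∩ Half true) : Set CS) → Y := fun z =>
    if h : z.1 ∈ A then ⟨g z.1, hg _ h⟩ else y₀
  have hAf : ∀ z : (A ∪ (X ∩ Half true) : Set CS), z.1 0 = false → z.1 ∈ A := by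
    rintro ⟨z, hz | hz⟩ h0
    · exact hz
    · have h1 : z 0 = true := hz.2
      have h2 : z 0 = false := h0
      rw [h1] at h2
      exact absurd h2 (by decide)
  have hAf' : ∀ z : (A ∪ (X ∩ Half true) : Set CS), z.1 ∈ A → z.1 0 = false := fun z hz =>
    (hA hz).2
  have hf : Continuous f := by
    apply Continuous.subtype_mk (f := fun z => (f z).1)
    apply continuous_pi
    intro k
    apply IsLocallyConstant.continuous
    rw [IsLocallyConstant.iff_exists_open]
    intro z
    by_cases hz : z.1 ∈ A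
    · refine ⟨Subtype.val ⁻¹' {y : CS | ∀ m ≤ k, y m = z.1 m},
        (isOpen_agree z.1 k).preimage continuous_subtype_val, fun m _ => rfl, ?_⟩
      intro z' hz'
      have h1 : z'.1 ∈ A := hAf z' ((hz' 0 (Nat.zero_le k)).trans (hAf' z hz))
      show (f z').1 k = (f z).1 k
      simp only [f, dif_pos hz, dif_pos h1]
      exact hlip _ h1 _ hz k hz' k le_rfl
    · have hz0 : z.1 0 = true := by
        by_contra hcon
        exact hz (hAf z (by simpa using hcon))
      refine ⟨Subtype.val ⁻¹' Half true, (isOpen_half true).preimage continuous_subtype_val,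
        hz0, ?_⟩
      intro z' hz'
      have h1 : z'.1 ∉ A := fun h => by
        have h2 := hAf' z' h
        have h3 : z'.1 0 = true := hz'
        rw [h2] at h3
        exact absurd h3 (by decide)
      show (f z').1 k = (f z).1 k
      simp only [f, dif_neg hz, dif_neg h1]
  have hc := hT _ hZX hZ f hf
  apply hAc
  have h1 : (g '' A).Countable := by
    refine (hc.image Subtype.val).mono ?_
    rintro _ ⟨a, ha, rfl⟩
    refine ⟨f ⟨a, Or.inl ha⟩, mem_range_self _, ?_⟩
    simp only [f, dif_pos ha]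
  exact countable_of_injective_of_countable_image hinj h1

theorem isOpen_K : IsOpen {q : (CS × CS) × (CS × CS) |
    ∃ n, q.1.1 n ≠ q.2.1 n ∧ ∀ m ≤ n, q.1.2 m = q.2.2 m} := by
  have h1 : ∀ m, Continuous fun q : (CS × CS) × (CS × CS) => (q.1.1 m, q.2.1 m) := fun m =>
    (((continuous_apply m).comp (continuous_fst.comp continuous_fst))).prodMk
      ((continuous_apply m).comp (continuous_fst.comp continuous_snd))
  have h2 : ∀ m, Continuous fun q : (CS × CS) × (CS × CS) => (q.1.2 m, q.2.2 m) := fun m =>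
    (((continuous_apply m).comp (continuous_snd.comp continuous_fst))).prodMk
      ((continuous_apply m).comp (continuous_snd.comp continuous_snd))
  have : {q : (CS × CS) × (CS × CS) | ∃ n, q.1.1 n ≠ q.2.1 n ∧ ∀ m ≤ n, q.1.2 m = q.2.2 m} =
      ⋃ n, ((fun q : (CS × CS) × (CS × CS) => (q.1.1 n, q.2.1 n)) ⁻¹' {b | b.1 ≠ b.2} ∩
        ⋂ m ∈ Finset.range (n + 1),
          (fun q : (CS × CS) × (CS × CS) => (q.1.2 m, q.2.2 m)) ⁻¹' {b | b.1 = b.2}) := by
    ext q
    simp only [mem_setOf_eq, mem_iUnion, mem_inter_iff, mem_preimage, mem_iInter, Finset.mem_range]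
    constructor
    · rintro ⟨n, h, h'⟩
      exact ⟨n, h, fun m hm => h' m (by omega)⟩
    · rintro ⟨n, h, h'⟩
      exact ⟨n, h, fun m hm => h' m (by omega)⟩
  rw [this]
  exact isOpen_iUnion fun n => ((isOpen_discrete _).preimage (h1 n)).inter
    (isOpen_biInter_finset fun m _ => (isOpen_discrete _).preimage (h2 m))

theorem not_totally (hO : OCA) (X Y : Set CS) (hX : CDense X) (hY : CDense Y) :
    ¬ (TotallyAvoids X Y ∧ TotallyAvoids Y X) := by
  rintro ⟨hXY, hYX⟩
  have hA := hX (Half false) (isOpen_half false) (half_nonempty false)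
  have hB := hY (Half false) (isOpen_half false) (half_nonempty false)
  obtain ⟨e⟩ : Nonempty ((X ∩ Half false : Set CS) ≃ (Y ∩ Half false : Set CS)) := by
    rw [← Cardinal.eq, hA, hB]
  let Γ : Set (CS × CS) := range fun a : (X ∩ Half false : Set CS) => (a.1, (e a).1)
  let K : Set (Γ × Γ) := {q | ∃ n, q.1.1.1 n ≠ q.2.1.1 n ∧ ∀ m ≤ n, q.1.1.2 m = q.2.1.2 m}
  have hK : IsOpen K := by
    have : K = (fun q : Γ × Γ => (q.1.1, q.2.1)) ⁻¹' {q : (CS × CS) × (CS × CS) |
      ∃ n, q.1.1 n ≠ q.2.1 n ∧ ∀ m ≤ n, q.1.2 m = q.2.2 m} := rfl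
    rw [this]
    exact isOpen_K.preimage ((continuous_subtype_val.comp continuous_fst).prodMk
      (continuous_subtype_val.comp continuous_snd))
  -- first coordinates determine the points of `Γ`, and so do second coordinates
  have hfst : ∀ p q : Γ, p.1.1 = q.1.1 → p = q := by
    rintro ⟨_, a, rfl⟩ ⟨_, b, rfl⟩ h
    have : a = b := Subtype.ext h
    subst this
    rfl
  have hsnd : ∀ p q : Γ, p.1.2 = q.1.2 → p = q := by
    rintro ⟨_, a, rfl⟩ ⟨_, b, rfl⟩ h
    have : a = b := e.injective (Subtype.ext h)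
    subst this
    rfl
  have hmem1 : ∀ p : Γ, p.1.1 ∈ X ∩ Half false := by
    rintro ⟨_, a, rfl⟩
    exact a.2
  have hmem2 : ∀ p : Γ, p.1.2 ∈ Y ∩ Half false := by
    rintro ⟨_, a, rfl⟩
    exact (e a).2
  classical
  rcases hO Γ K hK (by
    rintro a b ⟨n, h1, h2⟩
    exact ⟨n, h1.symm, fun m hm => (h2 m hm).symm⟩) with ⟨S, hS, hhom⟩ | ⟨F, hF, hhom⟩
  · -- a Lipschitz function from an uncountable subset of `X` to `Y`
    let A : Set CS := (fun p : Γ => p.1.1) '' S
    have hinv : ∀ a ∈ A, ∃ p ∈ S, p.1.1 = a := fun a ha => ha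
    haveI : Nonempty Γ := by
      by_contra hcon
      exact hS (by
        rw [not_nonempty_iff] at hcon
        exact Set.to_countable S)
    choose! φ hφ1 hφ2 using hinv
    refine kill X Y hX hY A ?_ ?_ (fun a => (φ a).1.2) ?_ ?_ ?_ hXY
    · rintro _ ⟨p, _, rfl⟩
      exact hmem1 p
    · intro hc
      exact hS (countable_of_injective_of_countable_image (fun p _ q _ h => hfst p q h) hc)
    · intro a _
      exact (hmem2 (φ a)).1
    · intro a ha b hb h
      have := hsnd _ _ h
      rw [← hφ2 a ha, ← hφ2 b hb, this]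
    · intro a ha b hb N h m hm
      by_cases hab : φ a = φ b
      · simp only [hab]
      · obtain ⟨n, hn1, hn2⟩ := hhom _ (hφ1 a ha) _ (hφ1 b hb) hab
        simp only at hn1
        rw [hφ2 a ha, hφ2 b hb] at hn1
        have : N < n := by
          by_contra hcon
          exact hn1 (h n (by omega))
        exact hn2 m (by omega)
  · obtain ⟨n, hn⟩ : ∃ n, ¬ (F n).Countable := by
      by_contra hcon
      push Not at hcon
      have h1 : (Set.univ : Set Γ).Countable := by
        rw [← hF]
        exact countable_iUnion hcon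
      have h2 : Γ.Countable := by
        have := h1.image Subtype.val
        rwa [image_univ, Subtype.range_coe] at this
      have h3 : (X ∩ Half false : Set CS).Countable := by
        refine (h2.image Prod.fst).mono ?_
        intro x hx
        exact ⟨_, ⟨⟨x, hx⟩, rfl⟩, rfl⟩
      have h4 := le_aleph0_iff_set_countable.mpr h3
      rw [hA] at h4
      exact absurd aleph0_lt_continuum (not_lt.mpr h4)
    let A : Set CS := (fun p : Γ => p.1.2) '' F n
    have hinv : ∀ a ∈ A, ∃ p ∈ F n, p.1.2 = a := fun a ha => ha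
    haveI : Nonempty Γ := by
      by_contra hcon
      exact hn (by
        rw [not_nonempty_iff] at hcon
        exact Set.to_countable (F n))
    choose! φ hφ1 hφ2 using hinv
    refine kill Y X hY hX A ?_ ?_ (fun a => (φ a).1.1) ?_ ?_ ?_ hYX
    · rintro _ ⟨p, _, rfl⟩
      exact hmem2 p
    · intro hc
      exact hn (countable_of_injective_of_countable_image (fun p _ q _ h => hsnd p q h) hc)
    · intro a _
      exact (hmem1 (φ a)).1
    · intro a ha b hb h
      have := hfst _ _ h
      rw [← hφ2 a ha, ← hφ2 b hb, this]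
    · intro a ha b hb N h m hm
      by_cases hab : φ a = φ b
      · simp only [hab]
      · by_contra hne
        apply hhom n _ (hφ1 a ha) _ (hφ1 b hb) hab
        refine ⟨m, hne, fun m' hm' => ?_⟩
        simp only
        rw [hφ2 a ha, hφ2 b hb]
        exact h m' (by omega)

end Pool.Agent.Q211.AV
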