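import Pool.Agent.Q211.AV.Cons

/-!
# The construction of the two sets
-/

namespace Pool.Agent.Q211.AV

open Cardinal Set PiNat Topology

/-- The index set of the recursion. -/
abbrev Idx : Type := (𝔠 : Cardinal.{0}).ord.ToType

theorem mk_Idx : #Idx = 𝔠 := Cardinal.mk_ord_toType 𝔠

theorem mk_CS : #CS = 𝔠 := by
  rw [mk_pi]
  simp

theorem mk_Code : #Code = 𝔠 := by
  rw [mk_set, mk_prod]
  simp

theorem mk_Iio_lt (a : Idx) : #(Iio a) < 𝔠 := mk_Iio_toType_ord_lt a

theorem mk_Iic_lt (a : Idx) : #(Iic a) < 𝔠 := by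
  have h : Iic a = Iio a ∪ {a} := by
    ext b
    simp [le_iff_lt_or_eq]
  rw [h]
  refine lt_of_le_of_lt (mk_union_le _ _) ?_
  apply add_lt_of_lt aleph0_le_continuum (mk_Iio_lt a)
  rw [mk_singleton]
  exact one_lt_aleph0.trans aleph0_lt_continuum

theorem exists_seq (hcov : CovMeagre) (c : Idx → Code) :
    ∃ z : Idx → CS, ∀ α, ∀ β < α, ∀ γ < α, ∀ s s' : Finset ℕ,
      flp s (z α) ∉ Bad (c β) (flp s' (z γ)) := by
  have step : ∀ (α : Idx) (g : (γ : Idx) → γ < α → CS), ∃ x : CS, ∀ β < α, ∀ γ (hγ : γ < α),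
      ∀ s s' : Finset ℕ, flp s x ∉ Bad (c β) (flp s' (g γ hγ)) := by
    intro α g
    let T : Type := (Iio α × Iio α) × (Finset ℕ × Finset ℕ)
    let B : T → Set CS := fun t => flp t.2.1 ⁻¹' Bad (c t.1.1) (flp t.2.2 (g t.1.2.1 t.1.2.2))
    have hT : #T < 𝔠 := by
      have h1 : #T = #(Iio α) * #(Iio α) * (ℵ₀ * ℵ₀) := by
        simp only [T, mk_prod, lift_id, Cardinal.mk_denumerable, Cardinal.mk_finset_of_infinite,
          aleph0_mul_aleph0]
      rw [h1, aleph0_mul_aleph0]
      exact mul_lt_of_lt aleph0_le_continuum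
        (mul_lt_of_lt aleph0_le_continuum (mk_Iio_lt α) (mk_Iio_lt α)) aleph0_lt_continuum
    have h2 := hcov (range B) (lt_of_le_of_lt mk_range_le hT) (by
      rintro _ ⟨t, rfl⟩
      exact isMeagre_preimage_flp _ (isMeagre_bad _ _))
    obtain ⟨x, hx⟩ := (ne_univ_iff_exists_notMem _).mp h2
    refine ⟨x, fun β hβ γ hγ s s' hb => hx ?_⟩
    exact ⟨_, ⟨((⟨β, hβ⟩, ⟨γ, hγ⟩), (s, s')), rfl⟩, hb⟩
  choose st hst using step
  let z : Idx → CS := wellFounded_lt.fix st
  have hz : ∀ α, z α = st α fun γ _ => z γ := fun α => WellFounded.fix_eq _ _ α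
  refine ⟨z, fun α β hβ γ hγ s s' => ?_⟩
  rw [hz α]
  exact hst α (fun γ _ => z γ) β hβ γ hγ s s'

/-- The set of the flips of the points with index in `J`. -/
def FlipSet (z : Idx → CS) (J : Set Idx) : Set CS := {x | ∃ α ∈ J, ∃ s, x = flp s (z α)}

theorem cDense_flipSet {c : Idx → Code} {z : Idx → CS}
    (hz : ∀ α, ∀ β < α, ∀ γ < α, ∀ s s' : Finset ℕ, flp s (z α) ∉ Bad (c β) (flp s' (z γ)))
    {J : Set Idx} (hJ : #J = 𝔠) : CDense (FlipSet z J) := by
  intro U hU ⟨u, hu⟩
  obtain ⟨v, ⟨a, n, rfl⟩, h1, h2⟩ :=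
    (isTopologicalBasis_cylinders (E := fun _ : ℕ => Bool)).exists_subset_of_mem_open hu hU
  have h3 : ∀ w : CS, ∃ s : Finset ℕ, flp s w ∈ U := by
    intro w
    classical
    refine ⟨(Finset.range n).filter fun m => w m ≠ a m, h2 ?_⟩
    rw [mem_cylinder_iff]
    intro i hi
    by_cases h : w i = a i
    · simp [flp, h]
    · have h4 : i ∈ (Finset.range n).filter fun m => w m ≠ a m := by
        simp [hi, h]
      simp only [flp, if_pos h4]
      cases h5 : w i <;> cases h6 : a i <;> simp_all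
  choose s hs using h3
  apply le_antisymm
  · rw [← mk_CS]
    exact mk_set_le _
  · rw [← hJ]
    have hinj : Function.Injective fun j : J =>
        (⟨flp (s (z j.1)) (z j.1), ⟨j.1, j.2, _, rfl⟩, hs _⟩ : (FlipSet z J ∩ U : Set CS)) := by
      have key : ∀ i j : J, i.1 < j.1 → flp (s (z i.1)) (z i.1) ≠ flp (s (z j.1)) (z j.1) := by
        intro i j hij he
        apply hz j.1 i.1 hij i.1 hij (s (z j.1)) (s (z i.1))
        exact Or.inr (Or.inr he.symm)
      intro i j he
      have he' : flp (s (z i.1)) (z i.1) = flp (s (z j.1)) (z j.1) := congrArg Subtype.val he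
      rcases lt_trichotomy i.1 j.1 with h | h | h
      · exact absurd he' (key i j h)
      · exact Subtype.ext h
      · exact absurd he'.symm (key j i h)
    exact mk_le_of_injective hinj

theorem strongly {c : Idx → Code} (hc : Function.Surjective c) {z : Idx → CS}
    (hz : ∀ α, ∀ β < α, ∀ γ < α, ∀ s s' : Finset ℕ, flp s (z α) ∉ Bad (c β) (flp s' (z γ)))
    {J J' : Set Idx} (hJ : #J = 𝔠) (hd : Disjoint J J') :
    StronglyAvoids (FlipSet z J) (FlipSet z J') := by
  intro Z hZ _ f hf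
  rw [(cDense_flipSet hz hJ).mk_eq]
  let g : Z → CS := fun x => (f x).1
  have hg : Continuous g := continuous_subtype_val.comp hf
  obtain ⟨β, hβ⟩ := hc (codeOf Z g)
  have h1 : #(range f) ≤ #(range g) := by
    have : range g = Subtype.val '' range f := by
      rw [← range_comp]
      rfl
    rw [this, mk_image_eq Subtype.val_injective]
  refine lt_of_le_of_lt h1 ?_
  have h2 : range g ⊆ {y | ¬ IsMeagre {x | Rel (codeOf Z g) x y}} ∪
      range fun t : Iic β × Finset ℕ => flp t.2 (z t.1) := by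
    rintro _ ⟨x, rfl⟩
    obtain ⟨α, hα, s, hs⟩ := hZ x.2
    obtain ⟨γ, hγ, s', hs'⟩ := (f x).2
    have hrel := rel_codeOf hg x
    have hgx : g x = flp s' (z γ) := hs'
    by_cases hle : γ ≤ β
    · right
      exact ⟨(⟨γ, hle⟩, s'), hs'.symm⟩
    · left
      intro hm
      push Not at hle
      rcases lt_trichotomy α γ with h | h | h
      · apply hz γ β hle α h s' s
        right; left
        rw [hβ, ← hs, ← hgx]
        exact ⟨isMeagre_right _, hrel⟩
      · subst h
        exact disjoint_left.mp hd hα hγ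
      · apply hz α β (hle.trans h) γ h s s'
        left
        rw [hβ, ← hs, ← hgx]
        exact ⟨hm, hrel⟩
  refine lt_of_le_of_lt (mk_le_mk_of_subset h2) ?_
  refine lt_of_le_of_lt (mk_union_le _ _) ?_
  apply add_lt_of_lt aleph0_le_continuum
  · exact lt_of_le_of_lt (le_aleph0_iff_set_countable.mpr countable_nonmeagre) aleph0_lt_continuum
  · refine lt_of_le_of_lt mk_range_le ?_
    rw [mk_prod, lift_id, lift_id]
    refine mul_lt_of_lt aleph0_le_continuum (mk_Iic_lt β) ?_
    rw [Cardinal.mk_finset_of_infinite, Cardinal.mk_denumerable]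
    exact aleph0_lt_continuum

theorem exists_pair (hcov : CovMeagre) : ∃ X Y : Set CS, CDense X ∧ CDense Y ∧
    StronglyAvoids X Y ∧ StronglyAvoids Y X := by
  obtain ⟨e⟩ : Nonempty (Idx ≃ Code) := by
    rw [← Cardinal.eq, mk_Idx, mk_Code]
  obtain ⟨z, hz⟩ := exists_seq hcov e
  obtain ⟨k⟩ : Nonempty (Idx ≃ Idx × Bool) := by
    rw [← Cardinal.eq, mk_prod, mk_Idx]
    simp
  have hJ : ∀ b : Bool, #{α | (k α).2 = b} = 𝔠 := by
    intro b
    apply le_antisymm
    · rw [← mk_Idx]
      exact mk_set_le _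
    · conv_lhs => rw [← mk_Idx]
      have hinj : Function.Injective fun i : Idx =>
          (⟨k.symm (i, b), by simp⟩ : {α | (k α).2 = b}) := by
        intro i j h
        have h1 := congrArg Subtype.val h
        have h2 := k.symm.injective h1
        exact congrArg Prod.fst h2
      exact mk_le_of_injective hinj
  have hd : Disjoint {α | (k α).2 = true} {α | (k α).2 = false} := by
    rw [disjoint_left]
    intro α h1 h2
    rw [mem_setOf_eq] at h1 h2
    rw [h1] at h2
    exact absurd h2 (by decide)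
  exact ⟨FlipSet z {α | (k α).2 = true}, FlipSet z {α | (k α).2 = false},
    cDense_flipSet hz (hJ true), cDense_flipSet hz (hJ false),
    strongly e.surjective hz (hJ true) hd, strongly e.surjective hz (hJ false) hd.symm⟩

end Pool.Agent.Q211.AV
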